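import Mathlib

namespace Pool.Agent.Results.MP_f5f603_al.TwoInvolutions

/-- a quandle, with right translations `s y : x ↦ x * y` -/
structure IsQuandle {R : Type} (s : R → Equiv.Perm R) : Prop where
  idem : ∀ x, s x x = x
  distrib : ∀ x y z, s z (s y x) = s (s z y) (s z x)

def Connected {R : Type} (s : R → Equiv.Perm R) : Prop :=
  ∀ x y, ∃ g ∈ Subgroup.closure (Set.range s), g x = y

def Involutory {R : Type} (s : R → Equiv.Perm R) : Prop := ∀ x y, s y (s y x) = x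

def GoodInv {R : Type} (s : R → Equiv.Perm R) (ρ : R → R) : Prop :=
  (∀ x, ρ (ρ x) = x) ∧ (∀ x y, ρ (s y x) = s y (ρ x)) ∧ ∀ y, s (ρ y) = (s y)⁻¹

def T : List (List (Fin 24)) := [[0, 7, 0, 7, 7, 0, 7, 0, 16, 17, 18, 19, 19, 16, 17, 18, 10, 11, 8, 9, 9, 10, 11, 8],
  [4, 1, 4, 1, 1, 4, 1, 4, 20, 21, 22, 23, 23, 20, 21, 22, 11, 8, 9, 10, 10, 11, 8, 9],
  [2, 5, 2, 5, 5, 2, 5, 2, 18, 19, 16, 17, 17, 18, 19, 16, 8, 9, 10, 11, 11, 8, 9, 10],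
  [6, 3, 6, 3, 3, 6, 3, 6, 22, 23, 20, 21, 21, 22, 23, 20, 9, 10, 11, 8, 8, 9, 10, 11],
  [1, 4, 1, 4, 4, 1, 4, 1, 17, 18, 19, 16, 16, 17, 18, 19, 14, 15, 12, 13, 13, 14, 15, 12],
  [5, 2, 5, 2, 2, 5, 2, 5, 21, 22, 23, 20, 20, 21, 22, 23, 15, 12, 13, 14, 14, 15, 12, 13],
  [3, 6, 3, 6, 6, 3, 6, 3, 19, 16, 17, 18, 18, 19, 16, 17, 12, 13, 14, 15, 15, 12, 13, 14],
  [7, 0, 7, 0, 0, 7, 0, 7, 23, 20, 21, 22, 22, 23, 20, 21, 13, 14, 15, 12, 12, 13, 14, 15],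
  [18, 22, 16, 20, 20, 18, 22, 16, 8, 15, 8, 15, 15, 8, 15, 8, 0, 3, 2, 1, 1, 0, 3, 2],
  [19, 23, 17, 21, 21, 19, 23, 17, 12, 9, 12, 9, 9, 12, 9, 12, 1, 0, 3, 2, 2, 1, 0, 3],
  [16, 20, 18, 22, 22, 16, 20, 18, 10, 13, 10, 13, 13, 10, 13, 10, 2, 1, 0, 3, 3, 2, 1, 0],
  [17, 21, 19, 23, 23, 17, 21, 19, 14, 11, 14, 11, 11, 14, 11, 14, 3, 2, 1, 0, 0, 3, 2, 1],
  [22, 16, 20, 18, 18, 22, 16, 20, 9, 12, 9, 12, 12, 9, 12, 9, 4, 7, 6, 5, 5, 4, 7, 6],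
  [23, 17, 21, 19, 19, 23, 17, 21, 13, 10, 13, 10, 10, 13, 10, 13, 5, 4, 7, 6, 6, 5, 4, 7],
  [20, 18, 22, 16, 16, 20, 18, 22, 11, 14, 11, 14, 14, 11, 14, 11, 6, 5, 4, 7, 7, 6, 5, 4],
  [21, 19, 23, 17, 17, 21, 19, 23, 15, 8, 15, 8, 8, 15, 8, 15, 7, 6, 5, 4, 4, 7, 6, 5],
  [8, 14, 10, 12, 12, 8, 14, 10, 2, 4, 0, 6, 6, 2, 4, 0, 16, 23, 16, 23, 23, 16, 23, 16],
  [9, 15, 11, 13, 13, 9, 15, 11, 6, 2, 4, 0, 0, 6, 2, 4, 20, 17, 20, 17, 17, 20, 17, 20],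
  [10, 12, 8, 14, 14, 10, 12, 8, 0, 6, 2, 4, 4, 0, 6, 2, 18, 21, 18, 21, 21, 18, 21, 18],
  [11, 13, 9, 15, 15, 11, 13, 9, 4, 0, 6, 2, 2, 4, 0, 6, 22, 19, 22, 19, 19, 22, 19, 22],
  [12, 8, 14, 10, 10, 12, 8, 14, 3, 5, 1, 7, 7, 3, 5, 1, 17, 20, 17, 20, 20, 17, 20, 17],
  [13, 9, 15, 11, 11, 13, 9, 15, 7, 3, 5, 1, 1, 7, 3, 5, 21, 18, 21, 18, 18, 21, 18, 21],
  [14, 10, 12, 8, 8, 14, 10, 12, 1, 7, 3, 5, 5, 1, 7, 3, 19, 22, 19, 22, 22, 19, 22, 19],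
  [15, 11, 13, 9, 9, 15, 11, 13, 5, 1, 7, 3, 3, 5, 1, 7, 23, 16, 23, 16, 16, 23, 16, 23]]

def op (x y : Fin 24) : Fin 24 := (T.getD x []).getD y 0
def r1 (x : Fin 24) : Fin 24 := ([2, 3, 0, 1, 6, 7, 4, 5, 10, 11, 8, 9, 14, 15, 12, 13, 18, 19, 16, 17, 22, 23, 20, 21] : List (Fin 24)).getD x 0
def r2 (x : Fin 24) : Fin 24 := ([7, 4, 5, 6, 1, 2, 3, 0, 15, 12, 13, 14, 9, 10, 11, 8, 23, 20, 21, 22, 17, 18, 19, 16] : List (Fin 24)).getD x 0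

lemma h1 : ∀ y x, op (op x y) (r1 y) = x ∧ op (op x (r1 y)) y = x := by decide +kernel
lemma h2 : ∀ y x, op x (r2 y) = op x (r1 y) ∧ r1 (op x y) = op (r1 x) y ∧
    r2 (op x y) = op (r2 x) y := by decide +kernel
lemma h3 : ∀ x y z, op (op x y) z = op (op x z) (op y z) := by decide +kernel
lemma h4 : ∀ x, ∃ a b c, op (op (op 0 a) b) c = x := by
  have : ∀ x, ∃ b c, op (op (op 0 0) b) c = x ∨ op (op (op 0 8) b) c = x := by decide +kernel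
  intro x; obtain ⟨b, c, h | h⟩ := this x <;> exact ⟨_, _, _, h⟩

def s (y : Fin 24) : Equiv.Perm (Fin 24) :=
  ⟨fun x => op x y, fun x => op x (r1 y), fun x => (h1 y x).1, fun x => (h1 y x).2⟩

lemma sa (y x : Fin 24) : s y x = op x y := rfl
lemma si (y x : Fin 24) : (s y)⁻¹ x = op x (r1 y) := rfl
lemma h5 : ∀ x, op x x = x ∧ r1 (r1 x) = x ∧ r2 (r2 x) = x := by decide +kernel
lemma h6 : ∃ x y, op (op x y) y ≠ x := by decide +kernel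
lemma h7 : r1 0 ≠ r2 0 := by decide +kernel

theorem result : ∃ (R : Type) (s : R → Equiv.Perm R), IsQuandle s ∧ Connected s ∧ ¬ Involutory s ∧
    ∃ ρ₁ ρ₂, ρ₁ ≠ ρ₂ ∧ GoodInv s ρ₁ ∧ GoodInv s ρ₂ := by
  refine ⟨Fin 24, s, ⟨fun x => ?_, fun x y z => ?_⟩, fun x y => ?_, fun h => ?_, r1, r2,
    fun h => h7 (congrFun h 0), ⟨fun x => (h5 x).2.1, fun x y => ?_, fun y => Equiv.ext fun x => ?_⟩,
    ⟨fun x => (h5 x).2.2, fun x y => ?_, fun y => Equiv.ext fun x => ?_⟩⟩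
  · rw [sa, (h5 x).1]
  · simp only [sa]; exact h3 x y z
  · obtain ⟨a, b, b', ha⟩ := h4 x
    obtain ⟨c, d, d', hc⟩ := h4 y
    have m : ∀ a, s a ∈ Subgroup.closure (Set.range s) := fun a => Subgroup.subset_closure ⟨a, rfl⟩
    refine ⟨s d' * s d * s c * (s b' * s b * s a)⁻¹, mul_mem (mul_mem (mul_mem (m _) (m _)) (m _))
      (inv_mem (mul_mem (mul_mem (m _) (m _)) (m _))), ?_⟩
    have e : (s b' * s b * s a)⁻¹ x = 0 := by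
      rw [Equiv.Perm.inv_eq_iff_eq]; simp only [Equiv.Perm.mul_apply, sa, ha]
    rw [Equiv.Perm.mul_apply, e]
    simp only [Equiv.Perm.mul_apply, sa, hc]
  · obtain ⟨x, y, hxy⟩ := h6
    have := h x y
    simp only [sa] at this
    exact hxy this
  · simp only [sa]; exact (h2 y x).2.1
  · rw [sa, si]
  · simp only [sa]; exact (h2 y x).2.2
  · rw [sa, si, (h2 y x).1]

end Pool.Agent.Results.MP_f5f603_al.TwoInvolutions
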